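import Pool.Agent.Helper95.LN.Stmts

/-!
# Sheet LN, row ES1: the field energy is a lower bound of the Coulomb energy
-/

set_option autoImplicit false

namespace Pool.Agent.Helper40.LN

open MeasureTheory Pool.Agent.Helper95.PW Pool.Agent.Helper95.LN

theorem nr_neg' (y : R3) : nr (-y) = nr y := by
  simp [nr]

theorem ph_neg' (a : ℝ) (y : R3) : ph a (-y) = ph a y := by
  simp only [ph, nr_neg']

theorem et_neg' (a : ℝ) (y : R3) : et a (-y) = et a y := by
  simp only [et, nr_neg']

theorem Kf_neg' (a : ℝ) (z : R3) : Kf a (-z) = Kf a z := by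
  unfold Kf
  congr 1
  rw [← integral_neg_eq_self (fun w => ph a (w - z) * et a w)]
  refine integral_congr_ae (Filter.Eventually.of_forall fun w => ?_)
  change ph a (w - -z) * et a w = ph a (-w - z) * et a (-w)
  rw [et_neg', show -w - z = -(w - -z) by abel, ph_neg']

theorem sum_sym' {n : ℕ} (f : Fin n → Fin n → ℝ) (hf : ∀ k l, f k l = f l k) :
    ∑ k, ∑ l, f k l = ∑ k, f k k + 2 * ∑ k, ∑ l, (if k < l then f k l else 0) := by
  have h1 : ∀ k l, f k l = (if k < l then f k l else 0) + (if l < k then f k l else 0) +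
      (if k = l then f k l else 0) := by
    intro k l
    rcases lt_trichotomy k l with h | h | h
    · simp [h, h.ne, not_lt.2 h.le]
    · subst h
      simp
    · simp [h, h.ne', not_lt.2 h.le]
  have h2 : ∑ k, ∑ l, (if l < k then f k l else 0) =
      ∑ k, ∑ l, (if k < l then f k l else 0) := by
    rw [Finset.sum_comm]
    refine Finset.sum_congr rfl fun k _ => Finset.sum_congr rfl fun l _ => ?_
    rw [hf]
  calc ∑ k, ∑ l, f k l = ∑ k, ∑ l, ((if k < l then f k l else 0) +
        (if l < k then f k l else 0) + (if k = l then f k l else 0)) :=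
        Finset.sum_congr rfl fun k _ => Finset.sum_congr rfl fun l _ => h1 k l
    _ = ∑ k, f k k + 2 * ∑ k, ∑ l, (if k < l then f k l else 0) := by
        simp only [Finset.sum_add_distrib]
        rw [h2]
        simp only [Finset.sum_ite_eq, Finset.mem_univ, if_true]
        ring

theorem ES1 (hDEX : ST_DEX) (hKK : ST_KK) (_hPHA : ST_PHA) (_hPHC : ST_PHC) : ST_ES1 := by
  intro z d hz hd
  refine ⟨(1 + z) * (8 / d), by positivity, ?_⟩
  intro n M X Z x hS hN hZ hD
  obtain ⟨hZ0, hZn⟩ := hN
  have hb : 0 < d / 8 := by positivity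
  have hK := fun z => hKK (d / 8) z hb
  obtain ⟨-, hDn⟩ := hDEX (d / 8) n M X Z x hb
  have e1 := sum_sym' (fun k l => Kf (d / 8) (x k - x l)) (by
    intro k l
    rw [← Kf_neg', neg_sub])
  have e2 := sum_sym' (fun i j => Z i * Z j * Kf (d / 8) (X i - X j)) (by
    intro i j
    rw [← Kf_neg', neg_sub, mul_comm (Z i)])
  simp only [sub_self] at e1 e2
  have e3 : Rem (d / 8) x =
      rep x - ∑ k, ∑ l, (if k < l then Kf (d / 8) (x k - x l) else 0) := by
    unfold Rem rep
    rw [← Finset.sum_sub_distrib]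
    refine Finset.sum_congr rfl fun k _ => ?_
    rw [← Finset.sum_sub_distrib]
    refine Finset.sum_congr rfl fun l _ => ?_
    split_ifs
    · rfl
    · simp
  have h4 : ∑ i, ∑ j, (if i < j then Z i * Z j * Kf (d / 8) (X i - X j) else 0) ≤
      nucR X Z := by
    unfold nucR
    refine Finset.sum_le_sum fun i _ => Finset.sum_le_sum fun j _ => ?_
    split_ifs with h
    · have h5 := hS i j h.ne
      have h6 : nr (X i - X j) ≠ 0 := by
        intro h0
        rw [h0] at h5
        linarith
      calc Z i * Z j * Kf (d / 8) (X i - X j) ≤ Z i * Z j * (1 / nr (X i - X j)) :=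
            mul_le_mul_of_nonneg_left ((hK _).2.1 h6) (mul_nonneg (hZ0 i) (hZ0 j))
        _ = Z i * Z j / nr (X i - X j) := by ring
    · exact le_rfl
  have h5 : ∑ k, pot X Z (x k) - ∑ k, ∑ j, Z j * Kf (d / 8) (x k - X j) ≤
      z * ∑ k, near1 X d (x k) := by
    rw [Finset.mul_sum, ← Finset.sum_sub_distrib]
    refine Finset.sum_le_sum fun k _ => ?_
    unfold pot near1
    rw [Finset.mul_sum, ← Finset.sum_sub_distrib]
    refine Finset.sum_le_sum fun j _ => ?_
    have hne := hD.2 k j
    have hpos : 0 < nr (x k - X j) := lt_of_le_of_ne (Real.sqrt_nonneg _) (Ne.symm hne)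
    split_ifs with h
    · have h6 : 0 ≤ Z j * Kf (d / 8) (x k - X j) := mul_nonneg (hZ0 j) (hK _).2.2.1
      have h7 : Z j / nr (x k - X j) ≤ z * (1 / nr (x k - X j)) := by
        rw [mul_one_div]
        exact div_le_div_of_nonneg_right (hZ j) hpos.le
      linarith
    · push Not at h
      rw [(hK _).1 (by linarith), mul_zero]
      have h6 : Z j / nr (x k - X j) - Z j * (1 / nr (x k - X j)) = 0 := by ring
      exact h6.le
  have h6 : Kf (d / 8) 0 ≤ 16 / d := by
    have h7 := (hK 0).2.2.2
    have h8 : 2 / (d / 8) = 16 / d := by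
      field_simp
      norm_num
    rwa [h8] at h7
  have h60 : 0 ≤ Kf (d / 8) 0 := (hK 0).2.2.1
  have h7 : ∑ j, Z j * Z j ≤ z * n := by
    rw [← hZn, Finset.mul_sum]
    exact Finset.sum_le_sum fun j _ => mul_le_mul_of_nonneg_right (hZ j) (hZ0 j)
  have h70 : 0 ≤ ∑ j, Z j * Z j := Finset.sum_nonneg fun j _ => mul_self_nonneg _
  rw [Finset.sum_const, Finset.card_univ, Fintype.card_fin, nsmul_eq_mul] at e1
  rw [← Finset.sum_mul] at e2
  have h8 : ((n : ℝ) + ∑ j, Z j * Z j) * Kf (d / 8) 0 ≤ (n + z * n) * (16 / d) :=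
    mul_le_mul (by linarith) h6 h60 (by positivity)
  have h9 : (1 + z) * (8 / d) * n = (n + z * n) * (16 / d) / 2 := by ring
  rw [hDn, e1, e2, e3, h9]
  unfold Vc
  linarith

end Pool.Agent.Helper40.LN
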